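import Mathlib

/-!
# Points which are projectively near to a point of large height lie in a proper subspace
-/

set_option autoImplicit false

namespace Pool.Agent.X286.Vn

open Finset Matrix

/-- a maximal set of pairwise unrelated elements -/
theorem exists_net {α : Type*} (P : α → Prop) (R : α → α → Prop) (hr : ∀ a, R a a)
    (hs : ∀ a b, R a b → R b a) (M : ℕ)
    (h : ∀ T : Finset α, (∀ a ∈ T, P a) → (∀ a ∈ T, ∀ b ∈ T, a ≠ b → ¬ R a b) → T.card ≤ M) :
    ∃ T : Finset α, T.card ≤ M ∧ (∀ a ∈ T, P a) ∧ ∀ a, P a → ∃ b ∈ T, R a b := by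
  classical
  obtain ⟨Q, hQ⟩ : ∃ Q : ℕ → Prop, Q = fun k => ∃ T : Finset α, (∀ a ∈ T, P a) ∧
    (∀ a ∈ T, ∀ b ∈ T, a ≠ b → ¬ R a b) ∧ T.card = k := ⟨_, rfl⟩
  have h0 : Q 0 := by
    rw [hQ]
    exact ⟨∅, by simp, by simp, rfl⟩
  have h1 : Q (Nat.findGreatest Q M) := Nat.findGreatest_spec (Nat.zero_le M) h0
  obtain ⟨k, hk⟩ : ∃ k, k = Nat.findGreatest Q M := ⟨_, rfl⟩
  rw [← hk] at h1
  rw [hQ] at h1
  obtain ⟨T, hT1, hT2, hT3⟩ := h1
  refine ⟨T, h T hT1 hT2, hT1, fun a ha => ?_⟩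
  by_contra hcon
  push Not at hcon
  have haT : a ∉ T := fun haT => hcon a haT (hr a)
  have g1 : ∀ b ∈ insert a T, P b := by
    intro b hb
    rcases mem_insert.1 hb with rfl | hb
    · exact ha
    · exact hT1 b hb
  have g2 : ∀ b ∈ insert a T, ∀ c ∈ insert a T, b ≠ c → ¬ R b c := by
    intro b hb c hc hbc
    rcases mem_insert.1 hb with rfl | hb' <;> rcases mem_insert.1 hc with rfl | hc'
    · exact absurd rfl hbc
    · exact hcon c hc'
    · exact fun hR => hcon b hb' (hs _ _ hR)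
    · exact hT2 b hb' c hc' hbc
  have g3 := h (insert a T) g1 g2
  have g4 : (insert a T).card = k + 1 := by rw [card_insert_of_notMem haT, hT3]
  rw [g4] at g3
  have g5 : Q (k + 1) := by
    rw [hQ]
    exact ⟨insert a T, g1, g2, g4⟩
  have := Nat.le_findGreatest g3 g5
  omega

/-- the values of the linear forms `a i` at the integral vector `x` -/
def ev {n q : ℕ} (a : Fin q → Fin n → ℤ) (x : Fin n → ℤ) (i : Fin q) : ℤ := ∑ k, a i k * x k

/-- the bound of `core` -/
def cb (r U Z : ℕ) : ℕ := U * (r + 1) * r.factorial * (Z ^ r) ^ (r + 1) + 1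

theorem core {n r : ℕ} (a : Fin (r + 1) → Fin n → ℤ) (u : Fin (r + 1) → ℤ) (hu : ∀ i, u i ≠ 0)
    (hrel : ∀ k, ∑ i, u i * a i k = 0)
    (hmin : ∀ w : Fin r → ℚ, (∀ k, ∑ i, w i * (a i.succ k : ℚ) = 0) → w = 0)
    (S : Set (Fin n → ℤ)) (x0 : Fin n → ℤ) {Z U : ℕ} (hZ : 1 ≤ Z) (hU : ∀ i, |u i| ≤ U)
    (hS : ∀ x ∈ S, (∀ i, ev a x i ≠ 0) ∧ ∀ i : Fin (r + 1), ∃ c d : ℤ, c ≠ 0 ∧ d ≠ 0 ∧
      |c| ≤ Z ∧ |d| ≤ Z ∧ c * (ev a x i * ev a x0 0) = d * (ev a x0 i * ev a x 0))
    (h0 : ∀ i, ev a x0 i ≠ 0)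
    (hspan : Submodule.span ℚ ((fun x : Fin n → ℤ => fun k => (x k : ℚ)) '' S) = ⊤)
    (i : Fin (r + 1)) : ∃ c d : ℤ, c ≠ 0 ∧ d ≠ 0 ∧ |c| ≤ cb r U Z ∧ |d| ≤ cb r U Z ∧
      c * ev a x0 i = d * ev a x0 0 := by
  classical
  obtain ⟨ρ, hρ⟩ : ∃ ρ : (Fin n → ℤ) → Fin r → ℚ, ρ = fun x i =>
    (ev a x i.succ : ℚ) * ev a x0 0 / (ev a x0 i.succ * ev a x 0) := ⟨_, rfl⟩
  have h0q : ∀ i, (ev a x0 i : ℚ) ≠ 0 := fun i => by exact_mod_cast h0 i
  -- the vectors `ρ x` span
  have hsp : Submodule.span ℚ (ρ '' S) = ⊤ := by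
    by_contra hne
    obtain ⟨f, hf, hker⟩ := Submodule.exists_le_ker_of_lt_top _ (lt_top_iff_ne_top.2 hne)
    apply hf
    obtain ⟨w', hw'⟩ : ∃ w' : Fin r → ℚ, w' = fun i => f (fun j => if i = j then 1 else 0) :=
      ⟨_, rfl⟩
    have hfv : ∀ v, f v = ∑ i, v i * w' i := by
      intro v
      rw [LinearMap.pi_apply_eq_sum_univ f v, hw']
      simp only [smul_eq_mul]
    obtain ⟨w, hw⟩ : ∃ w : Fin r → ℚ, w = fun i => w' i / ev a x0 i.succ := ⟨_, rfl⟩
    have hwx : ∀ x ∈ S, ∑ i, w i * (ev a x i.succ : ℚ) = 0 := by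
      intro x hx
      have hx0 : (ev a x 0 : ℚ) ≠ 0 := by exact_mod_cast (hS x hx).1 0
      have h1 : f (ρ x) = 0 := LinearMap.mem_ker.1 (hker (Submodule.subset_span ⟨x, hx, rfl⟩))
      rw [hfv] at h1
      have h2 : ∑ i, ρ x i * w' i = (ev a x0 0 : ℚ) / ev a x 0 * ∑ i, w i * (ev a x i.succ : ℚ) := by
        rw [Finset.mul_sum]
        refine sum_congr rfl fun i _ => ?_
        rw [hρ, hw]
        have := h0q i.succ
        field_simp
      rw [h2] at h1
      rcases mul_eq_zero.1 h1 with h3 | h3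
      · exact absurd h3 (div_ne_zero (h0q 0) hx0)
      · exact h3
    -- the functional
    obtain ⟨φ, hφ⟩ : ∃ φ : (Fin n → ℚ) →ₗ[ℚ] ℚ, ∀ y, φ y = ∑ i, w i * ∑ k, (a i.succ k : ℚ) * y k := by
      refine ⟨∑ i, w i • ∑ k, (a i.succ k : ℚ) • LinearMap.proj k, fun y => ?_⟩
      simp [LinearMap.sum_apply]
    have hφ0 : φ = 0 := by
      have h1 : (⊤ : Submodule ℚ (Fin n → ℚ)) ≤ LinearMap.ker φ := by
        rw [← hspan, Submodule.span_le]
        rintro _ ⟨x, hx, rfl⟩
        rw [SetLike.mem_coe, LinearMap.mem_ker, hφ]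
        have h2 := hwx x hx
        rw [← h2]
        refine sum_congr rfl fun i _ => ?_
        unfold ev
        push_cast
        rfl
      rw [top_le_iff] at h1
      exact LinearMap.ker_eq_top.1 h1
    have hw0 : w = 0 := by
      apply hmin
      intro k
      have h1 : φ (Pi.single k 1) = 0 := by rw [hφ0, LinearMap.zero_apply]
      rw [hφ] at h1
      rw [← h1]
      refine sum_congr rfl fun i _ => ?_
      congr 1
      rw [Finset.sum_eq_single k]
      · simp
      · intro b _ hb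
        simp [hb]
      · intro h
        exact absurd (mem_univ k) h
    ext v
    have hw'0 : ∀ i, w' i = 0 := by
      intro i
      have h1 := congrFun hw0 i
      rw [hw] at h1
      simp only [Pi.zero_apply] at h1
      rcases div_eq_zero_iff.1 h1 with h2 | h2
      · exact h2
      · exact absurd h2 (h0q _)
    simp [hfv, hw'0]
  -- the points
  obtain ⟨f, hfS, -, hfi⟩ := Submodule.exists_fun_fin_finrank_span_eq ℚ (ρ '' S)
  have hfr : Module.finrank ℚ (Submodule.span ℚ (ρ '' S)) = r := by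
    rw [hsp, finrank_top, Module.finrank_fin_fun]
  obtain ⟨g, hgS, hgi⟩ : ∃ g : Fin r → Fin r → ℚ, (∀ k, g k ∈ ρ '' S) ∧
      LinearIndependent ℚ g := by
    refine ⟨fun k => f (Fin.cast hfr.symm k), fun k => hfS _, ?_⟩
    exact hfi.comp _ (Fin.cast_injective _)
  choose x hxS hxg using hgS
  have hx := fun k => hS (x k) (hxS k)
  choose hx0 c d hc hd hcZ hdZ hcd using hx
  have hx0q : ∀ k i, (ev a (x k) i : ℚ) ≠ 0 := fun k i => by exact_mod_cast hx0 k i
  have hcq : ∀ k i, (c k i : ℚ) ≠ 0 := fun k i => by exact_mod_cast hc k i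
  obtain ⟨D, hD⟩ : ∃ D : Fin r → ℤ, D = fun k => ∏ i : Fin r, c k i.succ := ⟨_, rfl⟩
  obtain ⟨B, hB⟩ : ∃ B : Matrix (Fin r) (Fin r) ℤ, B = Matrix.of fun k i =>
    d k i.succ * ∏ l ∈ univ.erase i, c k l.succ := ⟨_, rfl⟩
  have hρc : ∀ k i, (c k i.succ : ℚ) * g k i = d k i.succ := by
    intro k i
    rw [← hxg k, hρ]
    have h1 : (c k i.succ : ℚ) * (ev a (x k) i.succ * ev a x0 0) =
        d k i.succ * (ev a x0 i.succ * ev a (x k) 0) := by exact_mod_cast hcd k i.succ
    have h2 := h0q i.succ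
    have h3 := hx0q k 0
    simp only
    rw [← mul_div_assoc, h1]
    field_simp
  have hBg : ∀ k i, (B k i : ℚ) = D k * g k i := by
    intro k i
    rw [hB, hD]
    simp only [Matrix.of_apply]
    rw [← Finset.mul_prod_erase univ (fun l : Fin r => c k l.succ) (mem_univ i)]
    push_cast
    rw [← hρc k i]
    ring
  have hD0 : ∀ k, D k ≠ 0 := fun k => by
    rw [hD]
    exact prod_ne_zero_iff.2 fun i _ => hc k _
  have hdet : B.det ≠ 0 := by
    have h1 : ((B.det : ℤ) : ℚ) = (∏ k, (D k : ℚ)) * (Matrix.of g).det := by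
      have h2 : ((B.det : ℤ) : ℚ) = (B.map (Int.castRingHom ℚ)).det := by
        rw [← RingHom.mapMatrix_apply, ← RingHom.map_det]
        rfl
      rw [h2, ← Matrix.det_mul_column]
      congr 1
      ext k i
      rw [Matrix.map_apply, Matrix.of_apply, Matrix.of_apply]
      exact hBg k i
    have h3 : (Matrix.of g).det ≠ 0 := by
      have h4 : IsUnit (Matrix.of g) := Matrix.linearIndependent_rows_iff_isUnit.1 hgi
      exact ((Matrix.isUnit_iff_isUnit_det _).1 h4).ne_zero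
    intro h4
    rw [h4, Int.cast_zero] at h1
    have h5 : (∏ k, (D k : ℚ)) * (Matrix.of g).det ≠ 0 :=
      mul_ne_zero (prod_ne_zero_iff.2 fun k _ => by exact_mod_cast hD0 k) h3
    exact h5 h1.symm
  -- the linear system
  have hrelx : ∀ y : Fin n → ℤ, ∑ i, u i * ev a y i = 0 := by
    intro y
    unfold ev
    calc ∑ i, u i * ∑ k, a i k * y k = ∑ k, (∑ i, u i * a i k) * y k := by
          simp only [Finset.mul_sum, Finset.sum_mul]
          rw [Finset.sum_comm]
          refine sum_congr rfl fun k _ => sum_congr rfl fun i _ => by ring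
      _ = 0 := by simp [hrel]
  obtain ⟨cv, hcv⟩ : ∃ cv : Fin r → ℤ, cv = fun i => u i.succ * ev a x0 i.succ := ⟨_, rfl⟩
  have hsys : B *ᵥ cv = (-(u 0 * ev a x0 0)) • D := by
    funext k
    rw [Matrix.mulVec, dotProduct, Pi.smul_apply, smul_eq_mul]
    have h1 := hrelx (x k)
    rw [Fin.sum_univ_succ] at h1
    have h1q : (u 0 : ℚ) * ev a (x k) 0 + ∑ i : Fin r, (u i.succ : ℚ) * ev a (x k) i.succ = 0 := by
      exact_mod_cast h1
    have h2 : (((∑ i, B k i * cv i : ℤ)) : ℚ) = D k * (ev a x0 0 / ev a (x k) 0) *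
        ∑ i : Fin r, (u i.succ : ℚ) * ev a (x k) i.succ := by
      push_cast
      rw [Finset.mul_sum]
      refine sum_congr rfl fun i _ => ?_
      rw [hBg, ← hxg k, hρ, hcv]
      push_cast
      have h3 := h0q i.succ
      have h4 := hx0q k 0
      field_simp
    have h3 : ∑ i : Fin r, (u i.succ : ℚ) * ev a (x k) i.succ = -(u 0 * ev a (x k) 0) := by
      linarith
    rw [h3] at h2
    have h4 := hx0q k 0
    have h5 : (((∑ i, B k i * cv i : ℤ)) : ℚ) = ((-(u 0 * ev a x0 0) * D k : ℤ) : ℚ) := by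
      rw [h2]
      push_cast
      field_simp
    exact_mod_cast h5
  obtain ⟨t, ht⟩ : ∃ t : Fin r → ℤ, t = B.adjugate *ᵥ D := ⟨_, rfl⟩
  have hfin : ∀ i, B.det * cv i = -(u 0 * ev a x0 0) * t i := by
    intro i
    have h1 : B.adjugate *ᵥ (B *ᵥ cv) = B.det • cv := by
      rw [Matrix.mulVec_mulVec, Matrix.adjugate_mul, Matrix.smul_mulVec, Matrix.one_mulVec]
    rw [hsys, Matrix.mulVec_smul, ← ht] at h1
    have h2 := congrFun h1 i
    simp only [Pi.smul_apply, smul_eq_mul] at h2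
    linarith
  -- the bounds
  have hZr : 1 ≤ Z ^ r := Nat.one_le_pow _ _ hZ
  have hpr : ∀ (k : Fin r) (s : Finset (Fin r)), |∏ l ∈ s, c k l.succ| ≤ (Z : ℤ) ^ s.card := by
    intro k s
    rw [Finset.abs_prod]
    exact (prod_le_prod (fun _ _ => abs_nonneg _) fun l _ => hcZ k l.succ).trans
      (by rw [prod_const])
  have hDb : ∀ k, |D k| ≤ ((Z ^ r : ℕ) : ℤ) := by
    intro k
    rw [hD]
    have := hpr k univ
    rw [card_univ, Fintype.card_fin] at this
    push_cast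
    exact this
  have hBb : ∀ k i, |B k i| ≤ ((Z ^ r : ℕ) : ℤ) := by
    intro k i
    rw [hB, Matrix.of_apply, abs_mul]
    have h1 := hpr k (univ.erase i)
    have hcard : (univ.erase i : Finset (Fin r)).card + 1 = r := by
      rw [card_erase_of_mem (mem_univ i), card_univ, Fintype.card_fin]
      have := i.2
      omega
    calc |d k i.succ| * |∏ l ∈ univ.erase i, c k l.succ| ≤ (Z : ℤ) * (Z : ℤ) ^ (univ.erase i).card :=
          mul_le_mul (hdZ k _) h1 (abs_nonneg _) (by positivity)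
      _ = ((Z ^ r : ℕ) : ℤ) := by
          push_cast
          rw [← pow_succ', hcard]
  obtain ⟨F, hF⟩ : ∃ F : ℤ, F = r.factorial • ((Z ^ r : ℕ) : ℤ) ^ r := ⟨_, rfl⟩
  have hdetb : |B.det| ≤ F := by
    have := Matrix.det_le (A := B) (abv := AbsoluteValue.abs) (x := ((Z ^ r : ℕ) : ℤ))
      (fun i j => hBb i j)
    rw [Fintype.card_fin] at this
    rw [hF]
    exact this
  have hadjb : ∀ i j, |B.adjugate i j| ≤ F := by
    intro i j
    rw [Matrix.adjugate_apply]
    have := Matrix.det_le (A := B.updateRow j (Pi.single i 1)) (abv := AbsoluteValue.abs)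
      (x := ((Z ^ r : ℕ) : ℤ)) (fun k l => by
        rw [AbsoluteValue.abs_apply]
        by_cases hkj : k = j
        · rw [hkj, Matrix.updateRow_self]
          by_cases hil : l = i
          · rw [hil, Pi.single_eq_same, abs_one]
            exact_mod_cast hZr
          · rw [Pi.single_eq_of_ne hil, abs_zero]
            positivity
        · rw [Matrix.updateRow_ne hkj]
          exact hBb k l)
    rw [Fintype.card_fin] at this
    rw [hF]
    exact this
  have hF0 : 0 ≤ F := by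
    rw [hF]
    positivity
  have htb : ∀ i, |t i| ≤ r * (F * ((Z ^ r : ℕ) : ℤ)) := by
    intro i
    rw [ht, Matrix.mulVec, dotProduct]
    calc |∑ j, B.adjugate i j * D j| ≤ ∑ j, |B.adjugate i j * D j| := abs_sum_le_sum_abs _ _
      _ ≤ ∑ _j : Fin r, F * ((Z ^ r : ℕ) : ℤ) := by
          refine sum_le_sum fun j _ => ?_
          rw [abs_mul]
          exact mul_le_mul (hadjb i j) (hDb j) (abs_nonneg _) hF0
      _ = _ := by rw [sum_const, card_univ, Fintype.card_fin, nsmul_eq_mul]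
  have hcb : (U : ℤ) * (r + 1) * (F * ((Z ^ r : ℕ) : ℤ)) + 1 = ((cb r U Z : ℕ) : ℤ) := by
    unfold cb
    rw [hF]
    push_cast
    rw [nsmul_eq_mul]
    ring
  have hZrz : (1 : ℤ) ≤ ((Z ^ r : ℕ) : ℤ) := by exact_mod_cast hZr
  have hU0 : (0 : ℤ) ≤ U := Int.natCast_nonneg _
  refine Fin.cases ?_ (fun i => ?_) i
  · refine ⟨1, 1, one_ne_zero, one_ne_zero, ?_, ?_, rfl⟩
    all_goals
      rw [abs_one, ← hcb]
      have : 0 ≤ (U : ℤ) * (r + 1) * (F * ((Z ^ r : ℕ) : ℤ)) := by positivity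
      linarith
  · have h1 := hfin i
    rw [hcv] at h1
    simp only at h1
    have hti : t i ≠ 0 := by
      intro h
      rw [h, mul_zero] at h1
      exact absurd h1 (mul_ne_zero hdet (mul_ne_zero (hu _) (h0 _)))
    refine ⟨B.det * u i.succ, -(u 0 * t i), mul_ne_zero hdet (hu _),
      neg_ne_zero.2 (mul_ne_zero (hu 0) hti), ?_, ?_, by linarith⟩
    · rw [← hcb, abs_mul]
      have h2 : |B.det| * |u i.succ| ≤ F * U := mul_le_mul hdetb (hU _) (abs_nonneg _) hF0
      have h3 : F * U ≤ (U : ℤ) * (r + 1) * (F * ((Z ^ r : ℕ) : ℤ)) := by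
        have h4 : (0 : ℤ) ≤ r := Int.natCast_nonneg _
        calc F * U = U * 1 * (F * 1) := by ring
          _ ≤ (U : ℤ) * (r + 1) * (F * ((Z ^ r : ℕ) : ℤ)) := by
              refine mul_le_mul (mul_le_mul_of_nonneg_left (by linarith) hU0)
                (mul_le_mul_of_nonneg_left hZrz hF0) (by positivity) (by positivity)
      linarith
    · rw [← hcb, abs_neg, abs_mul]
      have h2 : |u 0| * |t i| ≤ U * (r * (F * ((Z ^ r : ℕ) : ℤ))) :=
        mul_le_mul (hU 0) (htb i) (abs_nonneg _) hU0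
      have h3 : (U : ℤ) * (r * (F * ((Z ^ r : ℕ) : ℤ))) ≤
          (U : ℤ) * (r + 1) * (F * ((Z ^ r : ℕ) : ℤ)) := by
        have h5 : 0 ≤ (U : ℤ) * (F * ((Z ^ r : ℕ) : ℤ)) := by positivity
        linarith
      linarith

end Pool.Agent.X286.Vn
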