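import Mathlib
import Pool.Agent.X286.Vn.Core
import Pool.Agent.Y902.GN.Gq

/-!
# One minimal relation between linear forms
-/

set_option autoImplicit false

namespace Pool.Agent.X286.Vn

open Finset Matrix Pool.Agent.Y902.GN

/-- the nonzero integers `y i` are small integers times products of powers of `N` integers `≤ Y` -/
def Rep {q : ℕ} (N E Y : ℕ) (y : Fin q → ℤ) : Prop :=
  ∃ (s : Fin q → ℤ) (b : Fin N → ℕ) (e : Fin q → Fin N → ℕ), (∀ j, 1 ≤ b j ∧ b j ≤ Y) ∧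
    (∀ i, |s i| ≤ (Y : ℤ) ^ E) ∧ ∀ i, y i = s i * ∏ j, (b j : ℤ) ^ e i j

/-- the quotient `y / z` has height at most `Z` -/
def Small (Z : ℤ) (y z : ℤ) : Prop :=
  ∃ c d : ℤ, c ≠ 0 ∧ d ≠ 0 ∧ |c| ≤ Z ∧ |d| ≤ Z ∧ c * y = d * z

theorem near_refl {n C Y : ℕ} (a : Fin n → ℤ) : NearP C Y a a := by
  intro i i0
  refine ⟨1, 1, one_ne_zero, one_ne_zero, ?_, ?_, rfl⟩
  all_goals
    rw [abs_one]
    exact one_le_pow₀ (by linarith [Int.natCast_nonneg Y])

theorem near_symm {n C Y : ℕ} {a b : Fin n → ℤ} (h : NearP C Y a b) : NearP C Y b a := by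
  intro i i0
  obtain ⟨r, r', h1, h2, h3, h4, h5⟩ := h i i0
  exact ⟨r', r, h2, h1, h4, h3, h5.symm⟩

theorem num (M Z k : ℕ) (hZ : 2 ≤ Z) : M * Z ^ k + 1 ≤ Z ^ (k + (M + 1)) := by
  have h1 : M + 1 ≤ Z ^ (M + 1) := (Nat.lt_pow_self (by omega : 1 < Z)).le
  have h2 : 1 ≤ Z ^ k := Nat.one_le_pow _ _ (by omega)
  calc M * Z ^ k + 1 ≤ M * Z ^ k + Z ^ k := by omega
    _ = Z ^ k * (M + 1) := by ring
    _ ≤ Z ^ k * Z ^ (M + 1) := Nat.mul_le_mul_left _ h1
    _ = Z ^ (k + (M + 1)) := (pow_add _ _ _).symm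

theorem circuit {n r : ℕ} (a : Fin (r + 1) → Fin n → ℤ) (u : Fin (r + 1) → ℤ) (hu : ∀ i, u i ≠ 0)
    (hrel : ∀ k, ∑ i, u i * a i k = 0)
    (hmin : ∀ w : Fin r → ℚ, (∀ k, ∑ i, w i * (a i.succ k : ℚ) = 0) → w = 0)
    (N E : ℕ) (ε : ℝ) (hε : 0 < ε) : ∃ (κ : ℕ) (δ K : ℝ), 0 < δ ∧ 0 < K ∧ ∀ Y : ℕ, 1 ≤ Y →
      ∃ 𝓥 : Finset (Submodule ℚ (Fin n → ℚ)), (𝓥.card : ℝ) ≤ K * (Y : ℝ) ^ ε ∧
        (∀ V ∈ 𝓥, V ≠ ⊤) ∧ ∀ x : Fin n → ℤ, (∀ i, ev a x i ≠ 0) →
          (∀ i, ((|ev a x i| : ℤ) : ℝ) ≤ Real.exp ((Y : ℝ) ^ δ)) → Rep N E Y (ev a x) →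
          (∃ i, ¬ Small (((Y : ℤ) + 2) ^ κ) (ev a x i) (ev a x 0)) →
          ∃ V ∈ 𝓥, (fun k => (x k : ℚ)) ∈ V := by
  classical
  obtain ⟨C, δ, hδ, H⟩ := gq (r + 1) N E ε hε
  obtain ⟨U, hU⟩ : ∃ U : ℕ, ∀ i, |u i| ≤ (U : ℤ) := by
    refine ⟨∑ i, (u i).natAbs, fun i => ?_⟩
    rw [Int.abs_eq_natAbs]
    exact_mod_cast Finset.single_le_sum (f := fun i => (u i).natAbs) (fun _ _ => Nat.zero_le _)
      (mem_univ i)
  -- the factor for the bound of the bases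
  obtain ⟨c, hc1, hc⟩ : ∃ c : ℕ, 1 ≤ c ∧ (U : ℝ) ≤ Real.exp ((c : ℝ) ^ δ) := by
    have h1 : Filter.Tendsto (fun c : ℕ => Real.exp ((c : ℝ) ^ δ)) Filter.atTop Filter.atTop :=
      Real.tendsto_exp_atTop.comp ((tendsto_rpow_atTop hδ).comp tendsto_natCast_atTop_atTop)
    obtain ⟨c, h2, h3⟩ := ((h1.eventually_ge_atTop (U : ℝ)).and
      (Filter.eventually_ge_atTop 1)).exists
    exact ⟨c, h3, h2⟩
  have hc1r : (1 : ℝ) ≤ c := by exact_mod_cast hc1
  obtain ⟨κ, hκ⟩ : ∃ κ : ℕ, κ = (1 + c) * C * r * (r + 1) + (U * (r + 1) * r.factorial + 1) :=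
    ⟨_, rfl⟩
  refine ⟨κ, δ, (c : ℝ) ^ ε + 2 ^ (r + 1), hδ, by positivity, fun Y hY => ?_⟩
  have hYr : (1 : ℝ) ≤ (Y : ℝ) := by exact_mod_cast hY
  obtain ⟨Y', hY'⟩ : ∃ Y' : ℕ, Y' = c * Y := ⟨_, rfl⟩
  have hYY' : Y ≤ Y' := by rw [hY']; exact Nat.le_mul_of_pos_left _ hc1
  have hcY' : c ≤ Y' := by rw [hY']; exact Nat.le_mul_of_pos_right _ hY
  have hY'1 : 1 ≤ Y' := hY.trans hYY'
  have hexp : Real.exp ((Y : ℝ) ^ δ) ≤ Real.exp ((Y' : ℝ) ^ δ) :=
    Real.exp_le_exp.2 (Real.rpow_le_rpow (Nat.cast_nonneg _) (by exact_mod_cast hYY') hδ.le)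
  have hexp' : Real.exp ((c : ℝ) ^ δ) ≤ Real.exp ((Y' : ℝ) ^ δ) :=
    Real.exp_le_exp.2 (Real.rpow_le_rpow (Nat.cast_nonneg _) (by exact_mod_cast hcY') hδ.le)
  have huY : ∀ i, u i ≠ 0 ∧ ((|u i| : ℤ) : ℝ) ≤ Real.exp ((Y' : ℝ) ^ δ) := fun i =>
    ⟨hu i, le_trans (by exact_mod_cast hU i) (hc.trans hexp')⟩
  -- the points
  obtain ⟨P, hP⟩ : ∃ P : (Fin n → ℤ) → Prop, P = fun x => GqPt (r + 1) N E δ Y' u (ev a x) ∧
    ∃ i, ¬ Small (((Y : ℤ) + 2) ^ κ) (ev a x i) (ev a x 0) := ⟨_, rfl⟩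
  obtain ⟨R, hR⟩ : ∃ R : (Fin n → ℤ) → (Fin n → ℤ) → Prop, R = fun x y =>
    NearP C Y' (ev a x) (ev a y) := ⟨_, rfl⟩
  obtain ⟨T, hTc, hTP, hTR⟩ := exists_net P R (fun x => by rw [hR]; exact near_refl _)
    (fun x y h => by rw [hR] at h ⊢; exact near_symm h) ⌊(Y' : ℝ) ^ ε⌋₊ (by
      intro T hT1 hT2
      apply Nat.le_floor
      have hinj : Set.InjOn (ev a) (T : Set (Fin n → ℤ)) := by
        intro x hx y hy hxy
        by_contra hne
        apply hT2 x hx y hy hne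
        rw [hR]
        simp only
        rw [hxy]
        exact near_refl _
      rw [← card_image_of_injOn hinj]
      refine H Y' hY'1 u huY (T.image (ev a)) (fun y hy => ?_) (fun y hy z hz hyz => ?_)
      · obtain ⟨x, hx, rfl⟩ := mem_image.1 hy
        have := hT1 x hx
        rw [hP] at this
        exact this.1
      · obtain ⟨x, hx, rfl⟩ := mem_image.1 hy
        obtain ⟨x', hx', rfl⟩ := mem_image.1 hz
        have := hT2 x hx x' hx' (fun h => hyz (by rw [h]))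
        rw [hR] at this
        exact this)
  obtain ⟨V, hV⟩ : ∃ V : (Fin n → ℤ) → Submodule ℚ (Fin n → ℚ), V = fun x0 =>
    Submodule.span ℚ ((fun x : Fin n → ℤ => fun k => (x k : ℚ)) '' {x | P x ∧ R x x0}) :=
    ⟨_, rfl⟩
  obtain ⟨W, hW⟩ : ∃ W : Finset (Fin (r + 1)) → Submodule ℚ (Fin n → ℚ), ∀ K y, y ∈ W K ↔
      ∑ i ∈ K, (u i : ℚ) * ∑ k, (a i k : ℚ) * y k = 0 := by
    refine ⟨fun K => LinearMap.ker (∑ i ∈ K, (u i : ℚ) • ∑ k, (a i k : ℚ) •
      (LinearMap.proj k : (Fin n → ℚ) →ₗ[ℚ] ℚ)), fun K y => ?_⟩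
    rw [LinearMap.mem_ker]
    simp [LinearMap.sum_apply]
  obtain ⟨Ks, hKs⟩ : ∃ Ks : Finset (Finset (Fin (r + 1))), Ks = univ.filter fun K :
    Finset (Fin (r + 1)) => K.Nonempty ∧ K ≠ univ := ⟨_, rfl⟩
  refine ⟨T.image V ∪ Ks.image W, ?_, ?_, ?_⟩
  · have h1 : (T.image V ∪ Ks.image W).card ≤ ⌊(Y' : ℝ) ^ ε⌋₊ + 2 ^ (r + 1) := by
      refine (card_union_le _ _).trans (add_le_add (card_image_le.trans hTc)
        (card_image_le.trans ?_))
      refine (card_le_univ _).trans ?_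
      rw [Fintype.card_finset, Fintype.card_fin]
    have h2 : ((⌊(Y' : ℝ) ^ ε⌋₊ : ℕ) : ℝ) ≤ (c : ℝ) ^ ε * (Y : ℝ) ^ ε := by
      refine (Nat.floor_le (by positivity)).trans (le_of_eq ?_)
      rw [hY', Nat.cast_mul, Real.mul_rpow (Nat.cast_nonneg _) (Nat.cast_nonneg _)]
    have h3 : (1 : ℝ) ≤ (Y : ℝ) ^ ε := Real.one_le_rpow hYr hε.le
    have h4 : ((T.image V ∪ Ks.image W).card : ℝ) ≤ ((⌊(Y' : ℝ) ^ ε⌋₊ : ℕ) : ℝ) + 2 ^ (r + 1) := by
      exact_mod_cast h1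
    have h5 : (0 : ℝ) < 2 ^ (r + 1) := by positivity
    nlinarith
  · intro X hX
    rcases mem_union.1 hX with hX | hX
    · obtain ⟨x0, hx0, rfl⟩ := mem_image.1 hX
      intro htop
      have hPx0 := hTP x0 hx0
      rw [hP] at hPx0
      obtain ⟨g1, i, hi⟩ := hPx0
      apply hi
      rw [hV] at htop
      have hZ : (1 : ℕ) ≤ (Y' + 2) ^ C := Nat.one_le_pow _ _ (by omega)
      obtain ⟨c1, d1, e1, e2, e3, e4, e5⟩ := core a u hu hrel hmin {x | P x ∧ R x x0} x0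
        (Z := (Y' + 2) ^ C) hZ hU (by
          rintro x ⟨hx1, hx2⟩
          rw [hP] at hx1
          rw [hR] at hx2
          refine ⟨hx1.1.nz, fun i => ?_⟩
          obtain ⟨r1, r2, f1, f2, f3, f4, f5⟩ := hx2 i 0
          refine ⟨r1, r2, f1, f2, ?_, ?_, f5⟩
          · push_cast
            exact f3
          · push_cast
            exact f4) g1.nz htop i
      have hcb : ((cb r U ((Y' + 2) ^ C) : ℕ) : ℤ) ≤ ((Y : ℤ) + 2) ^ κ := by
        have h1 : Y' + 2 ≤ (Y + 2) ^ (1 + c) := by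
          have h2 : c ≤ (Y + 2) ^ c := (Nat.lt_pow_self (by omega : 1 < Y + 2)).le
          calc Y' + 2 = c * Y + 2 := by rw [hY']
            _ ≤ c * Y + c * 2 := by omega
            _ = (Y + 2) * c := by ring
            _ ≤ (Y + 2) * (Y + 2) ^ c := Nat.mul_le_mul_left _ h2
            _ = (Y + 2) ^ (1 + c) := by rw [pow_add, pow_one]
        have h2 : cb r U ((Y' + 2) ^ C) ≤ (Y + 2) ^ κ := by
          calc cb r U ((Y' + 2) ^ C) ≤ cb r U (((Y + 2) ^ (1 + c)) ^ C) := by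
                unfold cb
                gcongr
            _ = (U * (r + 1) * r.factorial) * (Y + 2) ^ ((1 + c) * C * r * (r + 1)) + 1 := by
                unfold cb
                rw [← pow_mul, ← pow_mul, ← pow_mul]
                congr 3
                ring
            _ ≤ (Y + 2) ^ κ := by
                rw [hκ]
                exact num _ _ _ (by omega)
        exact_mod_cast h2
      exact ⟨c1, d1, e1, e2, e3.trans hcb, e4.trans hcb, e5⟩
    · obtain ⟨K, hK, rfl⟩ := mem_image.1 hX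
      rw [hKs, mem_filter] at hK
      obtain ⟨-, hK1, hK2⟩ := hK
      intro htop
      have hform : ∀ k, ∑ i ∈ K, (u i : ℚ) * (a i k : ℚ) = 0 := by
        intro k
        have h1 : (Pi.single k 1 : Fin n → ℚ) ∈ W K := by rw [htop]; trivial
        rw [hW] at h1
        rw [← h1]
        refine sum_congr rfl fun i _ => ?_
        congr 1
        rw [Finset.sum_eq_single k]
        · simp
        · intro b _ hb
          simp [hb]
        · intro h
          exact absurd (mem_univ k) h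
      have hrelq : ∀ k, ∑ i, (u i : ℚ) * (a i k : ℚ) = 0 := fun k => by exact_mod_cast hrel k
      -- a relation whose support does not contain `0`
      have key : ∀ K' : Finset (Fin (r + 1)), 0 ∉ K' →
          (∀ k, ∑ i ∈ K', (u i : ℚ) * (a i k : ℚ) = 0) → K' = ∅ := by
        intro K' h0 h
        have h1 := hmin (fun i => if i.succ ∈ K' then (u i.succ : ℚ) else 0) (fun k => by
          have h2 := h k
          have h3 : ∑ i ∈ K', (u i : ℚ) * (a i k : ℚ) =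
              ∑ i, if i ∈ K' then (u i : ℚ) * (a i k : ℚ) else 0 := by
            rw [Finset.sum_ite_mem, Finset.univ_inter]
          rw [h3, Fin.sum_univ_succ, if_neg h0, zero_add] at h2
          refine Eq.trans (sum_congr rfl fun i _ => ?_) h2
          rw [ite_mul, zero_mul])
        rw [Finset.eq_empty_iff_forall_notMem]
        intro i hi
        rcases Fin.eq_zero_or_eq_succ i with rfl | ⟨j, rfl⟩
        · exact h0 hi
        · have h2 := congrFun h1 j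
          simp only [if_pos hi, Pi.zero_apply] at h2
          exact hu _ (by exact_mod_cast h2)
      by_cases h0 : (0 : Fin (r + 1)) ∈ K
      · have h1 := key (univ \ K) (by simp [h0]) (fun k => by
          have h2 := hrelq k
          rw [← Finset.sum_sdiff (subset_univ K), hform k, add_zero] at h2
          exact h2)
        exact hK2 (by
          rw [Finset.sdiff_eq_empty_iff_subset] at h1
          exact Finset.univ_subset_iff.1 h1)
      · exact hK1.ne_empty (key K h0 hform)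
  · intro x hx1 hx2 hx3 hx4
    by_cases hnv : ∀ K : Finset (Fin (r + 1)), K.Nonempty → K ≠ univ → ∑ i ∈ K, u i * ev a x i ≠ 0
    · have hPx : P x := by
        rw [hP]
        refine ⟨⟨hx1, ?_, hnv, fun i => (hx2 i).trans hexp, ?_⟩, hx4⟩
        · unfold ev
          calc ∑ i, u i * ∑ k, a i k * x k = ∑ k, (∑ i, u i * a i k) * x k := by
                simp only [Finset.mul_sum, Finset.sum_mul]
                rw [Finset.sum_comm]
                refine sum_congr rfl fun k _ => sum_congr rfl fun i _ => by ring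
            _ = 0 := by simp [hrel]
        · obtain ⟨s, b, e, h1, h2, h3⟩ := hx3
          refine ⟨s, b, e, fun j => ⟨(h1 j).1, (h1 j).2.trans hYY'⟩, fun i => (h2 i).trans ?_, h3⟩
          exact pow_le_pow_left₀ (Int.natCast_nonneg _) (by exact_mod_cast hYY') _
      obtain ⟨x0, hx0, hxx0⟩ := hTR x hPx
      refine ⟨V x0, mem_union_left _ (mem_image_of_mem _ hx0), ?_⟩
      rw [hV]
      exact Submodule.subset_span ⟨x, ⟨hPx, hxx0⟩, rfl⟩
    · push Not at hnv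
      obtain ⟨K, hK1, hK2, hK3⟩ := hnv
      refine ⟨W K, mem_union_right _ (mem_image_of_mem _ ?_), ?_⟩
      · rw [hKs, mem_filter]
        exact ⟨mem_univ _, hK1, hK2⟩
      · rw [hW]
        unfold ev at hK3
        exact_mod_cast hK3

end Pool.Agent.X286.Vn
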