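import Mathlib
import Pool.Agent.X286.Vn.Circ

/-!
# Irreducible arrangements of hyperplanes
-/

set_option autoImplicit false

namespace Pool.Agent.X286.Vn

open Finset

/-- the form `L i` as a rational vector -/
def vec {n q : ℕ} (L : Fin q → Fin n → ℤ) (i : Fin q) : Fin n → ℚ := fun k => (L i k : ℚ)

/-- the arrangement is essential and not a product of two arrangements -/
def Irreducible {n q : ℕ} (L : Fin q → Fin n → ℤ) : Prop :=
  Submodule.span ℚ (Set.range (vec L)) = ⊤ ∧ ∀ A : Set (Fin q), A.Nonempty → Aᶜ.Nonempty →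
    ¬ Disjoint (Submodule.span ℚ (vec L '' A)) (Submodule.span ℚ (vec L '' Aᶜ))

/-- the support -/
def supp {q : ℕ} (v : Fin q → ℚ) : Finset (Fin q) := univ.filter fun i => v i ≠ 0

theorem mem_supp {q : ℕ} {v : Fin q → ℚ} {i : Fin q} : i ∈ supp v ↔ v i ≠ 0 := by
  simp [supp]

/-- a minimal relation which involves members of `A` and of the complement -/
theorem exists_crossing {n q : ℕ} {L : Fin q → Fin n → ℤ} (hL : Irreducible L) (A : Set (Fin q))
    (h1 : A.Nonempty) (h2 : Aᶜ.Nonempty) : ∃ v : Fin q → ℚ, ∑ i, v i • vec L i = 0 ∧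
      (∃ i ∈ A, v i ≠ 0) ∧ (∃ j ∉ A, v j ≠ 0) ∧
      ∀ w : Fin q → ℚ, ∑ i, w i • vec L i = 0 → supp w ⊂ supp v → w = 0 := by
  classical
  obtain ⟨Q, hQ⟩ : ∃ Q : ℕ → Prop, Q = fun m => ∃ v : Fin q → ℚ, ∑ i, v i • vec L i = 0 ∧
    ∑ i ∈ univ.filter (fun i => i ∈ A), v i • vec L i ≠ 0 ∧ (supp v).card = m := ⟨_, rfl⟩
  have hex : ∃ m, Q m := by
    have h3 := hL.2 A h1 h2
    rw [Submodule.disjoint_def] at h3
    push Not at h3
    obtain ⟨y, hy1, hy2, hy0⟩ := h3
    have key : ∀ B : Set (Fin q), y ∈ Submodule.span ℚ (vec L '' B) → ∃ c : Fin q → ℚ,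
        (∀ i ∉ B, c i = 0) ∧ ∑ i, c i • vec L i = y := by
      intro B hB
      rw [Finsupp.mem_span_image_iff_linearCombination] at hB
      obtain ⟨l, hl1, hl2⟩ := hB
      refine ⟨fun i => l i, fun i hi => ?_, ?_⟩
      · by_contra hne
        exact hi ((Finsupp.mem_supported ℚ l).1 hl1 (Finsupp.mem_support_iff.2 hne))
      · rw [← hl2, Finsupp.linearCombination_apply, Finsupp.sum_fintype]
        intro i
        rw [zero_smul]
    obtain ⟨c, hc1, hc2⟩ := key A hy1
    obtain ⟨d, hd1, hd2⟩ := key Aᶜ hy2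
    refine ⟨(supp (c - d)).card, ?_⟩
    rw [hQ]
    refine ⟨c - d, ?_, ?_, rfl⟩
    · simp only [Pi.sub_apply, sub_smul, sum_sub_distrib]
      rw [hc2, hd2, sub_self]
    · have h4 : ∑ i ∈ univ.filter (fun i => i ∈ A), (c - d) i • vec L i = y := by
        rw [← hc2, Finset.sum_filter]
        refine sum_congr rfl fun i _ => ?_
        by_cases hi : i ∈ A
        · rw [if_pos hi, Pi.sub_apply, hd1 i (by simpa using hi), sub_zero]
        · rw [if_neg hi, hc1 i hi, zero_smul]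
      rw [h4]
      exact hy0
  have hm := Nat.find_spec hex
  have hmin := fun m => Nat.find_min (m := m) hex
  obtain ⟨m, hmd⟩ : ∃ m, m = Nat.find hex := ⟨_, rfl⟩
  rw [← hmd] at hm hmin
  rw [hQ] at hm
  obtain ⟨v, hv1, hv2, hv3⟩ := hm
  refine ⟨v, hv1, ?_, ?_, fun w hw1 hw2 => ?_⟩
  · by_contra hcon
    push Not at hcon
    apply hv2
    refine sum_eq_zero fun i hi => ?_
    rw [hcon i (mem_filter.1 hi).2, zero_smul]
  · by_contra hcon
    push Not at hcon
    apply hv2
    rw [← hv1, Finset.sum_filter]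
    refine sum_congr rfl fun i _ => ?_
    by_cases hi : i ∈ A
    · rw [if_pos hi]
    · rw [if_neg hi, hcon i hi, zero_smul]
  · by_contra hw0
    have hwA : ∑ i ∈ univ.filter (fun i => i ∈ A), w i • vec L i = 0 := by
      by_contra hne
      have h3 := card_lt_card hw2
      rw [hv3] at h3
      apply hmin _ h3
      rw [hQ]
      exact ⟨w, hw1, hne, rfl⟩
    obtain ⟨i0, hi0⟩ := Function.ne_iff.1 hw0
    rw [Pi.zero_apply] at hi0
    have hi0v : i0 ∈ supp v := hw2.subset (mem_supp.2 hi0)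
    obtain ⟨v', hv'⟩ : ∃ v' : Fin q → ℚ, v' = v - (v i0 / w i0) • w := ⟨_, rfl⟩
    have h4 : supp v' ⊂ supp v := by
      rw [Finset.ssubset_iff_of_subset]
      · refine ⟨i0, hi0v, ?_⟩
        rw [mem_supp, not_not, hv']
        simp only [Pi.sub_apply, Pi.smul_apply, smul_eq_mul]
        field_simp
        ring
      · intro i hi
        rw [mem_supp] at hi ⊢
        intro hvi
        apply hi
        have hwi : w i = 0 := by
          by_contra hne
          exact (mem_supp.1 (hw2.subset (mem_supp.2 hne))) hvi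
        rw [hv']
        simp [hvi, hwi]
    have h5 := card_lt_card h4
    rw [hv3] at h5
    apply hmin _ h5
    rw [hQ]
    refine ⟨v', ?_, ?_, rfl⟩
    · rw [hv']
      simp only [Pi.sub_apply, Pi.smul_apply, smul_eq_mul, sub_smul, sum_sub_distrib, mul_smul]
      rw [hv1, ← Finset.smul_sum, hw1, smul_zero, sub_zero]
    · rw [hv']
      simp only [Pi.sub_apply, Pi.smul_apply, smul_eq_mul, sub_smul, sum_sub_distrib, mul_smul]
      rw [← Finset.smul_sum, hwA, smul_zero, sub_zero]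
      exact hv2

/-- integral multiples -/
theorem exists_int {q : ℕ} (v : Fin q → ℚ) : ∃ (M : ℤ) (u : Fin q → ℤ), 0 < M ∧
    ∀ i, (u i : ℚ) = M * v i := by
  classical
  refine ⟨∏ i, ((v i).den : ℤ), fun i => (v i).num * ∏ j ∈ univ.erase i, ((v j).den : ℤ), ?_, ?_⟩
  · exact prod_pos fun i _ => by exact_mod_cast (v i).pos
  · intro i
    rw [← Finset.mul_prod_erase univ (fun j => ((v j).den : ℤ)) (mem_univ i)]
    push_cast
    have h1 : (v i : ℚ) = (v i).num / (v i).den := (Rat.num_div_den _).symm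
    have h2 : ((v i).den : ℚ) ≠ 0 := by exact_mod_cast (v i).den_ne_zero
    have h3 : ((v i).den : ℚ) * v i = (v i).num := by
      rw [mul_comm]
      exact Rat.mul_den_eq_num (v i)
    calc ((v i).num : ℚ) * ∏ j ∈ univ.erase i, ((v j).den : ℚ) =
        (((v i).den : ℚ) * v i) * ∏ j ∈ univ.erase i, ((v j).den : ℚ) := by rw [h3]
      _ = _ := by ring

theorem small_refl (Z y : ℤ) (hZ : 1 ≤ Z) : Small Z y y :=
  ⟨1, 1, one_ne_zero, one_ne_zero, by simpa using hZ, by simpa using hZ, rfl⟩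

theorem small_symm {Z y z : ℤ} (h : Small Z y z) : Small Z z y := by
  obtain ⟨c, d, h1, h2, h3, h4, h5⟩ := h
  exact ⟨d, c, h2, h1, h4, h3, h5.symm⟩

theorem small_trans {Z W y z t : ℤ} (h : Small Z y z) (h' : Small W z t) :
    Small (Z * W) y t := by
  obtain ⟨c, d, h1, h2, h3, h4, h5⟩ := h
  obtain ⟨c', d', g1, g2, g3, g4, g5⟩ := h'
  refine ⟨c * c', d * d', mul_ne_zero h1 g1, mul_ne_zero h2 g2, ?_, ?_, ?_⟩
  · rw [abs_mul]
    exact mul_le_mul h3 g3 (abs_nonneg _) ((abs_nonneg _).trans h3)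
  · rw [abs_mul]
    exact mul_le_mul h4 g4 (abs_nonneg _) ((abs_nonneg _).trans h4)
  · calc c * c' * y = c' * (c * y) := by ring
      _ = d * (c' * z) := by rw [h5]; ring
      _ = d * d' * t := by rw [g5]; ring

theorem small_mono {Z W y z : ℤ} (hW : Z ≤ W) (h : Small Z y z) : Small W y z := by
  obtain ⟨c, d, h1, h2, h3, h4, h5⟩ := h
  exact ⟨c, d, h1, h2, h3.trans hW, h4.trans hW, h5⟩

/-- **one cut of the arrangement** -/
theorem cross {n q : ℕ} {L : Fin q → Fin n → ℤ} (hL : Irreducible L) (A : Set (Fin q))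
    (h1 : A.Nonempty) (h2 : Aᶜ.Nonempty) (N E : ℕ) (ε : ℝ) (hε : 0 < ε) :
    ∃ (κ : ℕ) (δ K : ℝ), 0 < δ ∧ 0 < K ∧ ∀ Y : ℕ, 1 ≤ Y →
      ∃ 𝓥 : Finset (Submodule ℚ (Fin n → ℚ)), (𝓥.card : ℝ) ≤ K * (Y : ℝ) ^ ε ∧
        (∀ V ∈ 𝓥, V ≠ ⊤) ∧ ∀ x : Fin n → ℤ, (∀ i, ev L x i ≠ 0) →
          (∀ i, ((|ev L x i| : ℤ) : ℝ) ≤ Real.exp ((Y : ℝ) ^ δ)) → Rep N E Y (ev L x) →
          (∀ i ∈ A, ∀ j ∉ A, ¬ Small (((Y : ℤ) + 2) ^ κ) (ev L x j) (ev L x i)) →
          ∃ V ∈ 𝓥, (fun k => (x k : ℚ)) ∈ V := by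
  classical
  obtain ⟨v, hv1, ⟨i1, hi1, hi1v⟩, ⟨j1, hj1, hj1v⟩, hv4⟩ := exists_crossing hL A h1 h2
  obtain ⟨M, u, hM, hu⟩ := exists_int v
  have hcard : 0 < (supp v).card := card_pos.2 ⟨i1, mem_supp.2 hi1v⟩
  obtain ⟨r, hr⟩ : ∃ r, (supp v).card = r + 1 := ⟨(supp v).card - 1, by omega⟩
  obtain ⟨e, he⟩ : ∃ e : Fin (r + 1) ≃ {i // i ∈ supp v}, e = (Finset.equivFinOfCardEq hr).symm :=
    ⟨_, rfl⟩
  have hMq : (M : ℚ) ≠ 0 := by exact_mod_cast hM.ne'
  have hsum : ∀ (f : Fin q → ℚ), (∀ i, v i = 0 → f i = 0) →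
      ∑ t, f (e t) = ∑ i, f i := by
    intro f hf
    rw [Equiv.sum_comp e (fun i : {i // i ∈ supp v} => f i), Finset.sum_coe_sort (supp v) f]
    apply Finset.sum_subset (subset_univ _)
    intro i _ hi
    apply hf
    by_contra hne
    exact hi (mem_supp.2 hne)
  have hvk : ∀ k, ∑ i, v i * (L i k : ℚ) = 0 := by
    intro k
    have := congrFun hv1 k
    rw [Finset.sum_apply] at this
    simpa [vec] using this
  obtain ⟨κ, δ, K, hδ, hK, H⟩ := circuit (fun t => L (e t)) (fun t => u (e t))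
    (fun t h => by
      have h3 := hu (e t)
      rw [h, Int.cast_zero] at h3
      rcases mul_eq_zero.1 h3.symm with h4 | h4
      · exact hMq h4
      · exact (mem_supp.1 (e t).2) h4)
    (fun k => by
      have h3 := hsum (fun i => (M : ℚ) * (v i * (L i k : ℚ))) (fun i hi => by
        rw [hi]
        ring)
      rw [← Finset.mul_sum, ← Finset.mul_sum, hvk k, mul_zero] at h3
      have h4 : ((∑ t, u (e t) * L (e t) k : ℤ) : ℚ) = 0 := by
        push_cast
        rw [← h3, Finset.mul_sum]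
        refine sum_congr rfl fun t _ => ?_
        rw [hu]
        ring
      exact_mod_cast h4)
    (fun w hw => by
      obtain ⟨w', hw'⟩ : ∃ w' : Fin q → ℚ, w' = fun i => if h : i ∈ supp v then
        (Fin.cons 0 w : Fin (r + 1) → ℚ) (e.symm ⟨i, h⟩) else 0 := ⟨_, rfl⟩
      have hw'e : ∀ t, w' (e t) = (Fin.cons 0 w : Fin (r + 1) → ℚ) t := by
        intro t
        rw [hw']
        simp only
        rw [dif_pos (e t).2]
        congr 1
        exact e.symm_apply_apply t
      have h3 : w' = 0 := by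
        apply hv4
        · ext k
          rw [Finset.sum_apply, Pi.zero_apply]
          simp only [Pi.smul_apply, smul_eq_mul, vec]
          rw [← hsum (fun i => w' i * (L i k : ℚ)) (fun i hi => by
            rw [hw']
            simp only
            rw [dif_neg (fun h => (mem_supp.1 h) hi), zero_mul])]
          simp only [hw'e]
          rw [Fin.sum_univ_succ, Fin.cons_zero, zero_mul, zero_add]
          simp only [Fin.cons_succ]
          exact hw k
        · rw [Finset.ssubset_iff_of_subset]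
          · refine ⟨e 0, (e 0).2, ?_⟩
            rw [mem_supp, not_not, hw'e, Fin.cons_zero]
          · intro i hi
            rw [mem_supp] at hi
            by_contra hne
            apply hi
            rw [hw']
            simp only
            rw [dif_neg hne]
      funext t
      have h4 := hw'e t.succ
      rw [h3, Fin.cons_succ, Pi.zero_apply] at h4
      exact h4.symm) N E ε hε
  refine ⟨2 * κ, δ, K, hδ, hK, fun Y hY => ?_⟩
  obtain ⟨𝓥, hV1, hV2, hV3⟩ := H Y hY
  refine ⟨𝓥, hV1, hV2, fun x hx1 hx2 hx3 hx4 => ?_⟩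
  refine hV3 x (fun t => hx1 (e t)) (fun t => hx2 (e t)) ?_ ?_
  · obtain ⟨s, b, f, g1, g2, g3⟩ := hx3
    exact ⟨fun t => s (e t), b, fun t => f (e t), g1, fun t => g2 _, fun t => g3 _⟩
  · by_contra hcon
    push Not at hcon
    have hY2 : (1 : ℤ) ≤ (Y : ℤ) + 2 := by linarith [Int.natCast_nonneg Y]
    have f1 := hcon (e.symm ⟨i1, mem_supp.2 hi1v⟩)
    have f2 := hcon (e.symm ⟨j1, mem_supp.2 hj1v⟩)
    have g1 : ev (fun t => L (e t)) x (e.symm ⟨i1, mem_supp.2 hi1v⟩) = ev L x i1 := by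
      unfold ev
      simp only [Equiv.apply_symm_apply]
    have g2 : ev (fun t => L (e t)) x (e.symm ⟨j1, mem_supp.2 hj1v⟩) = ev L x j1 := by
      unfold ev
      simp only [Equiv.apply_symm_apply]
    rw [g1] at f1
    rw [g2] at f2
    apply hx4 i1 hi1 j1 hj1
    have f3 := small_trans f2 (small_symm f1)
    rwa [← pow_add, ← two_mul] at f3

/-- the height of a point all of whose forms have small quotients -/
theorem height_of_small {n q : ℕ} {L : Fin q → Fin n → ℤ}
    (hL : Submodule.span ℚ (Set.range (vec L)) = ⊤) : ∃ G : ℕ, ∀ (Z : ℕ) (x : Fin n → ℤ)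
    (i0 : Fin q), 1 ≤ Z → univ.gcd x = 1 → (∀ j, Small Z (ev L x j) (ev L x i0)) →
    ev L x i0 ≠ 0 → ∀ k, |x k| ≤ G * (Z : ℤ) ^ (2 * q) := by
  classical
  have h1 : ∀ k : Fin n, ∃ c : Fin q → ℚ, ∑ i, c i • vec L i = Pi.single k 1 := by
    intro k
    have h2 : (Pi.single k 1 : Fin n → ℚ) ∈ Submodule.span ℚ (Set.range (vec L)) := by
      rw [hL]
      trivial
    rw [Submodule.mem_span_range_iff_exists_fun] at h2
    exact h2
  choose g hg using h1
  have h2 : ∀ k, ∃ (M : ℤ) (u : Fin q → ℤ), 0 < M ∧ ∀ i, (u i : ℚ) = M * g k i := fun k =>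
    exists_int (g k)
  choose M u hM hu using h2
  obtain ⟨G, hG⟩ : ∃ G : ℕ, G = (∏ k, (M k).natAbs) * (∑ k, ∑ j, (∏ l, (M l).natAbs) *
    (u k j).natAbs) := ⟨_, rfl⟩
  obtain ⟨P, hP⟩ : ∃ P : ℤ, P = ∏ k, M k := ⟨_, rfl⟩
  have hP0 : 0 < P := by
    rw [hP]
    exact prod_pos fun k _ => hM k
  -- integral combinations
  have hcomb : ∀ k, ∃ m : Fin q → ℤ, (∀ x, P * x k = ∑ j, m j * ev L x j) ∧
      ∑ j, |m j| ≤ ∑ j, P * |u k j| := by
    intro k
    refine ⟨fun j => (∏ l ∈ univ.erase k, M l) * u k j, fun x => ?_, ?_⟩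
    · have h3 : ((P * x k : ℤ) : ℚ) =
          ((∑ j, (∏ l ∈ univ.erase k, M l) * u k j * ev L x j : ℤ) : ℚ) := by
        have h4 : ∑ j, g k j * (ev L x j : ℚ) = x k := by
          unfold ev
          push_cast
          calc ∑ j, g k j * ∑ l, (L j l : ℚ) * (x l : ℚ) =
              ∑ l, (∑ j, g k j * (L j l : ℚ)) * (x l : ℚ) := by
                simp only [Finset.mul_sum, Finset.sum_mul]
                rw [Finset.sum_comm]
                refine sum_congr rfl fun l _ => sum_congr rfl fun j _ => by ring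
            _ = ∑ l, (Pi.single k 1 : Fin n → ℚ) l * (x l : ℚ) := by
                refine sum_congr rfl fun l _ => ?_
                rw [← hg k, Finset.sum_apply]
                simp [vec]
            _ = x k := by
                rw [Finset.sum_eq_single k]
                · simp
                · intro b _ hb
                  simp [hb]
                · intro h
                  exact absurd (mem_univ k) h
        rw [hP, ← Finset.mul_prod_erase univ M (mem_univ k)]
        push_cast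
        rw [← h4, Finset.mul_sum]
        refine sum_congr rfl fun j _ => ?_
        rw [hu]
        ring
      have h5 : P * x k = ∑ j, (∏ l ∈ univ.erase k, M l) * u k j * ev L x j := by
        exact_mod_cast h3
      exact h5
    · refine sum_le_sum fun j _ => ?_
      rw [abs_mul]
      refine mul_le_mul_of_nonneg_right ?_ (abs_nonneg _)
      rw [abs_of_pos (prod_pos fun l _ => hM l), hP, ← Finset.mul_prod_erase univ M (mem_univ k)]
      have h6 : 0 < ∏ l ∈ univ.erase k, M l := prod_pos fun l _ => hM l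
      have h7 : 1 ≤ M k := hM k
      nlinarith
  refine ⟨G, fun Z x i0 hZ hx hs h0 k => ?_⟩
  have hZz : (1 : ℤ) ≤ Z := by exact_mod_cast hZ
  choose c d hc hd hcZ hdZ hcd using hs
  obtain ⟨R, hR⟩ : ∃ R : ℤ, R = ∏ j, c j := ⟨_, rfl⟩
  have hR0 : R ≠ 0 := by
    rw [hR]
    exact prod_ne_zero_iff.2 fun j _ => hc j
  have hprod : ∀ s : Finset (Fin q), |∏ j ∈ s, c j| ≤ (Z : ℤ) ^ s.card := by
    intro s
    rw [Finset.abs_prod]
    exact (prod_le_prod (fun _ _ => abs_nonneg _) fun j _ => hcZ j).trans (by rw [prod_const])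
  have hRb : |R| ≤ (Z : ℤ) ^ q := by
    rw [hR]
    have := hprod univ
    rwa [card_univ, Fintype.card_fin] at this
  obtain ⟨b, hb⟩ : ∃ b : Fin q → ℤ, b = fun j => (∏ l ∈ univ.erase j, c l) * d j := ⟨_, rfl⟩
  have hRy : ∀ j, R * ev L x j = b j * ev L x i0 := by
    intro j
    rw [hR, hb, ← Finset.mul_prod_erase univ c (mem_univ j)]
    simp only
    calc c j * (∏ l ∈ univ.erase j, c l) * ev L x j = (∏ l ∈ univ.erase j, c l) * (c j * ev L x j) := by
          ring
      _ = _ := by rw [hcd]; ring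
  have hbb : ∀ j, |b j| ≤ (Z : ℤ) ^ q := by
    intro j
    rw [hb]
    simp only
    rw [abs_mul]
    have hcard : (univ.erase j : Finset (Fin q)).card + 1 = q := by
      rw [card_erase_of_mem (mem_univ j), card_univ, Fintype.card_fin]
      have := j.2
      omega
    calc |∏ l ∈ univ.erase j, c l| * |d j| ≤ (Z : ℤ) ^ (univ.erase j).card * Z :=
          mul_le_mul (hprod _) (hdZ j) (abs_nonneg _) (by positivity)
      _ = (Z : ℤ) ^ q := by rw [← pow_succ, hcard]
  choose m hm1 hm2 using hcomb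
  have hxk : ∀ k, P * R * x k = ev L x i0 * ∑ j, m k j * b j := by
    intro k
    calc P * R * x k = R * (P * x k) := by ring
      _ = ∑ j, m k j * (R * ev L x j) := by
          rw [hm1, Finset.mul_sum]
          refine sum_congr rfl fun j _ => by ring
      _ = _ := by
          rw [Finset.mul_sum]
          refine sum_congr rfl fun j _ => ?_
          rw [hRy]
          ring
  have hdvd : ev L x i0 ∣ P * R := by
    have h3 : ev L x i0 ∣ univ.gcd (fun k => P * R * x k) :=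
      Finset.dvd_gcd fun k _ => ⟨_, hxk k⟩
    rw [Finset.gcd_mul_left, hx, mul_one] at h3
    exact h3.trans (normalize_associated _).dvd
  have hy0 : |ev L x i0| ≤ |P * R| := by
    rw [← abs_dvd_abs] at hdvd
    exact Int.le_of_dvd (abs_pos.2 (mul_ne_zero hP0.ne' hR0)) hdvd
  have hw : |∑ j, m k j * b j| ≤ (∑ j, P * |u k j|) * (Z : ℤ) ^ q := by
    calc |∑ j, m k j * b j| ≤ ∑ j, |m k j * b j| := abs_sum_le_sum_abs _ _
      _ ≤ ∑ j, |m k j| * (Z : ℤ) ^ q := by
          refine sum_le_sum fun j _ => ?_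
          rw [abs_mul]
          exact mul_le_mul_of_nonneg_left (hbb j) (abs_nonneg _)
      _ = (∑ j, |m k j|) * (Z : ℤ) ^ q := by rw [Finset.sum_mul]
      _ ≤ _ := mul_le_mul_of_nonneg_right (hm2 k) (by positivity)
  have h4 : |x k| ≤ |P * R * x k| := by
    rw [abs_mul]
    have : 1 ≤ |P * R| := Int.one_le_abs (mul_ne_zero hP0.ne' hR0)
    nlinarith [abs_nonneg (x k)]
  rw [hxk k, abs_mul] at h4
  have hPG : P * (∑ j, P * |u k j|) ≤ (G : ℤ) := by
    rw [hG]
    push_cast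
    have e1 : ∏ l, |M l| = P := by
      rw [← Finset.abs_prod, ← hP, abs_of_pos hP0]
    rw [e1]
    refine mul_le_mul_of_nonneg_left ?_ hP0.le
    exact Finset.single_le_sum (f := fun k => ∑ j, P * |u k j|)
      (fun k _ => Finset.sum_nonneg fun j _ => mul_nonneg hP0.le (abs_nonneg _)) (mem_univ k)
  calc |x k| ≤ |ev L x i0| * |∑ j, m k j * b j| := h4
    _ ≤ (P * (Z : ℤ) ^ q) * ((∑ j, P * |u k j|) * (Z : ℤ) ^ q) := by
        refine mul_le_mul (hy0.trans ?_) hw (abs_nonneg _) (by positivity)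
        rw [abs_mul, abs_of_pos hP0]
        exact mul_le_mul_of_nonneg_left hRb hP0.le
    _ = (P * (∑ j, P * |u k j|)) * (Z : ℤ) ^ (2 * q) := by
        rw [two_mul, pow_add]
        ring
    _ ≤ G * (Z : ℤ) ^ (2 * q) := mul_le_mul_of_nonneg_right hPG (by positivity)

/-- **Irreducible arrangements.** -/
theorem arr {n q : ℕ} {L : Fin q → Fin n → ℤ} (hL : Irreducible L) (N E : ℕ) (ε : ℝ)
    (hε : 0 < ε) : ∃ (κ : ℕ) (δ K : ℝ), 0 < δ ∧ 0 < K ∧ ∀ Y : ℕ, 1 ≤ Y →
      ∃ 𝓥 : Finset (Submodule ℚ (Fin n → ℚ)), (𝓥.card : ℝ) ≤ K * (Y : ℝ) ^ ε ∧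
        (∀ V ∈ 𝓥, V ≠ ⊤) ∧ ∀ x : Fin n → ℤ, univ.gcd x = 1 → (∀ i, ev L x i ≠ 0) →
          (∀ i, ((|ev L x i| : ℤ) : ℝ) ≤ Real.exp ((Y : ℝ) ^ δ)) → Rep N E Y (ev L x) →
          (∃ k, ((Y : ℤ) + 2) ^ κ < |x k|) → ∃ V ∈ 𝓥, (fun k => (x k : ℚ)) ∈ V := by
  classical
  -- the cuts
  have hcross := fun A : {A : Set (Fin q) // A.Nonempty ∧ Aᶜ.Nonempty} =>
    cross hL A.1 A.2.1 A.2.2 N E ε hε
  choose κ1 δ1 K1 hδ1 hK1 H1 using hcross
  obtain ⟨G, hG⟩ := height_of_small hL.1
  obtain ⟨κ2, hκ2⟩ : ∃ κ2 : ℕ, ∀ A, κ1 A ≤ κ2 := ⟨∑ A, κ1 A, fun A =>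
    Finset.single_le_sum (f := κ1) (fun _ _ => Nat.zero_le _) (mem_univ A)⟩
  obtain ⟨δ, hδ, hδA⟩ : ∃ δ : ℝ, 0 < δ ∧ ∀ A, δ ≤ δ1 A := by
    rcases isEmpty_or_nonempty {A : Set (Fin q) // A.Nonempty ∧ Aᶜ.Nonempty} with h | h
    · exact ⟨1, one_pos, fun A => h.elim A⟩
    · refine ⟨univ.inf' univ_nonempty δ1, ?_, fun A => Finset.inf'_le _ (mem_univ A)⟩
      rw [Finset.lt_inf'_iff]
      exact fun A _ => hδ1 A
  refine ⟨κ2 * q * (2 * q) + G + 1, δ, ∑ A, K1 A + 1, hδ, ?_, fun Y hY => ?_⟩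
  · have : 0 ≤ ∑ A, K1 A := Finset.sum_nonneg fun A _ => (hK1 A).le
    linarith
  have hYr : (1 : ℝ) ≤ (Y : ℝ) := by exact_mod_cast hY
  have hH := fun A => H1 A Y hY
  choose 𝓥 hV1 hV2 hV3 using hH
  refine ⟨univ.biUnion 𝓥, ?_, ?_, ?_⟩
  · have h1 : ((univ.biUnion 𝓥).card : ℝ) ≤ ∑ A, ((𝓥 A).card : ℝ) := by
      exact_mod_cast card_biUnion_le
    have h2 : ∑ A, ((𝓥 A).card : ℝ) ≤ ∑ A, K1 A * (Y : ℝ) ^ ε := sum_le_sum fun A _ => hV1 A
    rw [← Finset.sum_mul] at h2
    have h3 : (0 : ℝ) ≤ (Y : ℝ) ^ ε := by positivity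
    nlinarith
  · intro V hV
    obtain ⟨A, -, hA⟩ := mem_biUnion.1 hV
    exact hV2 A V hA
  · intro x hx hx1 hx2 hx3 hx4
    by_contra hcon
    push Not at hcon
    obtain ⟨k, hk⟩ := hx4
    have hY2 : (1 : ℤ) ≤ (Y : ℤ) + 2 := by linarith [Int.natCast_nonneg Y]
    have hcut : ∀ A : Set (Fin q), A.Nonempty → Aᶜ.Nonempty → ∃ i ∈ A, ∃ j ∉ A,
        Small (((Y : ℤ) + 2) ^ κ2) (ev L x j) (ev L x i) := by
      intro A h1 h2
      by_contra hno
      push Not at hno
      obtain ⟨V, hV, hxV⟩ := hV3 ⟨A, h1, h2⟩ x hx1 (fun i => (hx2 i).trans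
        (Real.exp_le_exp.2 (Real.rpow_le_rpow_of_exponent_le hYr (hδA _)))) hx3
        (fun i hi j hj hs => hno i hi j hj (small_mono
          (pow_le_pow_right₀ hY2 (hκ2 _)) hs))
      exact hcon V (mem_biUnion.2 ⟨_, mem_univ _, hV⟩) hxV
    -- there is a form
    obtain ⟨i0⟩ : Nonempty (Fin q) := by
      by_contra hemp
      rw [not_nonempty_iff] at hemp
      have h1 := hL.1
      rw [Set.range_eq_empty, Submodule.span_empty] at h1
      have h2 : (Pi.single k 1 : Fin n → ℚ) ∈ (⊥ : Submodule ℚ (Fin n → ℚ)) := by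
        rw [h1]
        trivial
      rw [Submodule.mem_bot] at h2
      have h3 := congrFun h2 k
      rw [Pi.single_eq_same, Pi.zero_apply] at h3
      exact one_ne_zero h3
    -- growing sets
    have hgrow : ∀ t : ℕ, t + 1 ≤ q → t + 1 ≤ (univ.filter fun j =>
        Small ((((Y : ℤ) + 2) ^ κ2) ^ t) (ev L x j) (ev L x i0)).card := by
      intro t
      induction t with
      | zero =>
        intro _
        refine card_pos.2 ⟨i0, mem_filter.2 ⟨mem_univ _, ?_⟩⟩
        rw [pow_zero]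
        exact small_refl _ _ le_rfl
      | succ t ih =>
        intro ht
        have h1 := ih (by omega)
        have h0 : (1 : ℤ) ≤ ((Y : ℤ) + 2) ^ κ2 := one_le_pow₀ hY2
        have hsub : (univ.filter fun j => Small ((((Y : ℤ) + 2) ^ κ2) ^ t) (ev L x j) (ev L x i0)) ⊆
            univ.filter fun j => Small ((((Y : ℤ) + 2) ^ κ2) ^ (t + 1)) (ev L x j) (ev L x i0) := by
          intro j hj
          rw [mem_filter] at hj ⊢
          exact ⟨mem_univ _, small_mono (pow_le_pow_right₀ h0 (Nat.le_succ t)) hj.2⟩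
        by_cases hall : ∀ j, Small ((((Y : ℤ) + 2) ^ κ2) ^ t) (ev L x j) (ev L x i0)
        · rw [filter_true_of_mem fun j _ => small_mono (pow_le_pow_right₀ h0 (Nat.le_succ t))
            (hall j), card_univ, Fintype.card_fin]
          exact ht
        · push Not at hall
          obtain ⟨j0, hj0⟩ := hall
          obtain ⟨i, hi, j, hj, hij⟩ := hcut
            {j | Small ((((Y : ℤ) + 2) ^ κ2) ^ t) (ev L x j) (ev L x i0)}
            ⟨i0, small_refl _ _ (one_le_pow₀ h0)⟩ ⟨j0, hj0⟩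
          have h2 : Small ((((Y : ℤ) + 2) ^ κ2) ^ (t + 1)) (ev L x j) (ev L x i0) := by
            have := small_trans hij hi
            rwa [← pow_succ'] at this
          have h3 : (univ.filter fun j => Small ((((Y : ℤ) + 2) ^ κ2) ^ t) (ev L x j)
              (ev L x i0)) ⊂ univ.filter fun j =>
                Small ((((Y : ℤ) + 2) ^ κ2) ^ (t + 1)) (ev L x j) (ev L x i0) := by
            rw [Finset.ssubset_iff_of_subset hsub]
            exact ⟨j, mem_filter.2 ⟨mem_univ _, h2⟩, fun h => hj (mem_filter.1 h).2⟩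
          have := card_lt_card h3
          omega
    have hq : 0 < q := i0.pos
    have hall : ∀ j, Small ((((Y : ℤ) + 2) ^ κ2) ^ q) (ev L x j) (ev L x i0) := by
      intro j
      have h1 := hgrow (q - 1) (by omega)
      have h2 : (univ.filter fun j => Small ((((Y : ℤ) + 2) ^ κ2) ^ (q - 1)) (ev L x j)
          (ev L x i0)) = univ := by
        apply Finset.eq_univ_of_card
        rw [Fintype.card_fin]
        refine le_antisymm ((card_le_univ _).trans (by rw [Fintype.card_fin])) (by omega)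
      have h3 : j ∈ (univ.filter fun j => Small ((((Y : ℤ) + 2) ^ κ2) ^ (q - 1)) (ev L x j)
          (ev L x i0)) := by
        rw [h2]
        exact mem_univ j
      exact small_mono (pow_le_pow_right₀ (one_le_pow₀ hY2) (by omega)) (mem_filter.1 h3).2
    have hfin := hG (((Y + 2) ^ κ2) ^ q) x i0 (Nat.one_le_pow _ _ (Nat.pow_pos (by omega))) hx
      (fun j => by
        have := hall j
        push_cast
        exact this) (hx1 i0) k
    have hbig : (G : ℤ) * ((((Y + 2) ^ κ2) ^ q : ℕ) : ℤ) ^ (2 * q) ≤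
        ((Y : ℤ) + 2) ^ (κ2 * q * (2 * q) + G + 1) := by
      have h1 := num G (Y + 2) (κ2 * q * (2 * q)) (by omega)
      have h2 : G * (((Y + 2) ^ κ2) ^ q) ^ (2 * q) ≤ (Y + 2) ^ (κ2 * q * (2 * q) + G + 1) := by
        have h3 : (((Y + 2) ^ κ2) ^ q) ^ (2 * q) = (Y + 2) ^ (κ2 * q * (2 * q)) := by
          rw [← pow_mul, ← pow_mul]
          congr 1
          ring
        rw [h3, add_assoc]
        omega
      exact_mod_cast h2
    linarith

end Pool.Agent.X286.Vn
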